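import Pool.Agent.Y757.HW.Stm1
import Pool.Agent.Y21.FW.Zeros

/-! The zeros of the zeta function at `ρ` and `1 - conj ρ` have the same order. -/

set_option autoImplicit false

namespace Pool.Agent.Y764.HW

open Pool.Agent.Y757.HW
open scoped ComplexConjugate

theorem t_sym : S_sym := by
  intro ρ h0 h1 h2
  have him : ρ.im ≠ 0 := by
    intro h
    have e : ρ = ((ρ.re : ℝ) : ℂ) := Complex.ext (by simp) (by simp [h])
    rw [e] at h0
    exact Pool.Agent.Y21.FW.real_ne h1 h2 h0
  have hs := Pool.Agent.Y21.FW.mult_symm him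
  refine ⟨?_, hs⟩
  have h3 : 0 < analyticOrderNatAt riemannZeta ρ :=
    (Pool.Agent.Y21.FW.mult_pos_iff (Pool.Agent.Y21.FW.ne_one him)).2 h0
  have him' : (1 - (starRingEnd ℂ) ρ).im ≠ 0 := by simpa using him
  exact (Pool.Agent.Y21.FW.mult_pos_iff (Pool.Agent.Y21.FW.ne_one him')).1 (by rw [hs]; exact h3)

end Pool.Agent.Y764.HW
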